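import Mathlib

namespace Pool.Agent.Results.MP_64a7c6_pr.PartialSumsNotLogConcave

open Finset

/-- The rows `λ₁ ≥ λ₂ ≥ …` of the partition `p` of `n`, as a list. -/
def rows {n : ℕ} (p : n.Partition) : List ℕ := p.parts.sort (· ≥ ·)

/-- The row length `λ_{i+1}` (zero beyond the number of parts). -/
def row {n : ℕ} (p : n.Partition) (i : ℕ) : ℕ := (rows p).getD i 0

/-- The cells `(i,j)`, `j < λ_{i+1}`, of the Young diagram of `p`. -/
def Cell {n : ℕ} (p : n.Partition) : Type := {c : ℕ × ℕ // c.2 < row p c.1}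

/-- Standard Young tableaux of shape `p`: bijective fillings of the cells with `0, …, n-1`
increasing along rows and down columns. -/
structure SYT {n : ℕ} (p : n.Partition) where
  /-- the bijective filling -/
  entry : Cell p ≃ Fin n
  row_lt : ∀ c d : Cell p, c.1.1 = d.1.1 → c.1.2 < d.1.2 → entry c < entry d
  col_lt : ∀ c d : Cell p, c.1.2 = d.1.2 → c.1.1 < d.1.1 → entry c < entry d

/-- The number `f^λ` of standard Young tableaux of shape `p`. -/
noncomputable def numSYT {n : ℕ} (p : n.Partition) : ℕ := Nat.card (SYT p)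

/-- The Plancherel measure `μ_n(λ) = (f^λ)² / n!`. -/
noncomputable def plancherel {n : ℕ} (p : n.Partition) : ℝ := (numSYT p : ℝ) ^ 2 / n.factorial

/-- `S_r = λ₁ + ⋯ + λ_r`. -/
def partialSum {n : ℕ} (p : n.Partition) (r : ℕ) : ℕ := ((rows p).take r).sum

/-- `prob n r j = μ_n(S_r = j)`. -/
noncomputable def prob (n r : ℕ) (j : ℤ) : ℝ :=
  ∑ p : n.Partition, if (partialSum p r : ℤ) = j then plancherel p else 0

/-- Log-concavity of a function on the integers. -/
def LogConcave (q : ℤ → ℝ) : Prop := ∀ j : ℤ, q (j - 1) * q (j + 1) ≤ q j ^ 2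

/-! ### Hooks -/

/-- The hook partition with arm `a` and leg `b`. -/
def hook (n a b : ℕ) (h : a + b + 1 = n) : n.Partition where
  parts := (a + 1) ::ₘ Multiset.replicate b 1
  parts_pos := by
    intro i hi
    rw [Multiset.mem_cons] at hi
    rcases hi with rfl | hi
    · omega
    · rw [Multiset.eq_of_mem_replicate hi]
      exact one_pos
  parts_sum := by
    rw [Multiset.sum_cons, Multiset.sum_replicate]
    simp
    omega

lemma sort_replicate (b : ℕ) : (Multiset.replicate b 1).sort (· ≥ ·) = List.replicate b 1 := by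
  induction b with
  | zero => simp
  | succ b ih =>
    rw [Multiset.replicate_succ, Multiset.sort_cons, ih, List.replicate_succ]
    intro c hc
    rw [Multiset.eq_of_mem_replicate hc]

lemma rows_hook (n a b : ℕ) (h : a + b + 1 = n) :
    rows (hook n a b h) = (a + 1) :: List.replicate b 1 := by
  unfold rows hook
  simp only
  rw [Multiset.sort_cons, sort_replicate]
  intro c hc
  rw [Multiset.eq_of_mem_replicate hc]
  omega

lemma row_hook (n a b : ℕ) (h : a + b + 1 = n) (i : ℕ) :
    row (hook n a b h) i = if i = 0 then a + 1 else if i ≤ b then 1 else 0 := by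
  unfold row
  rw [rows_hook]
  cases i with
  | zero => simp
  | succ i =>
    simp only [List.getD_cons_succ, Nat.add_eq_zero_iff, one_ne_zero, and_false, if_false]
    by_cases hi : i < b
    · rw [if_pos (by omega), List.getD_eq_getElem _ _ (by simpa using hi)]
      simp
    · rw [if_neg (by omega), List.getD_eq_default _ _ (by simpa using hi)]

lemma mem_hook {n a b : ℕ} {h : a + b + 1 = n} {i j : ℕ} :
    j < row (hook n a b h) i ↔ (i = 0 ∧ j ≤ a) ∨ (j = 0 ∧ i ≤ b) := by
  rw [row_hook]
  split_ifs <;> omega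

lemma partialSum_hook (n a b r : ℕ) (h : a + b + 1 = n) :
    partialSum (hook n a b h) (r + 1) = a + 1 + min r b := by
  unfold partialSum
  rw [rows_hook, List.take_succ_cons, List.sum_cons, List.take_replicate, List.sum_replicate]
  simp

/-- The cells of a hook. -/
def cellEquiv (n a b : ℕ) (h : a + b + 1 = n) :
    Cell (hook n a b h) ≃ Fin a ⊕ Fin (b + 1) where
  toFun c := if hc : c.1.2 = 0 then
      Sum.inr ⟨c.1.1, by
        have := mem_hook.1 c.2
        omega⟩
    else Sum.inl ⟨c.1.2 - 1, by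
        have := mem_hook.1 c.2
        omega⟩
  invFun s := match s with
    | Sum.inl j => ⟨(0, j.1 + 1), mem_hook.2 (Or.inl ⟨rfl, j.2⟩)⟩
    | Sum.inr i => ⟨(i.1, 0), mem_hook.2 (Or.inr ⟨rfl, Nat.lt_succ_iff.1 i.2⟩)⟩
  left_inv := by
    rintro ⟨⟨i, j⟩, hc⟩
    have := mem_hook.1 hc
    by_cases hj : j = 0
    · subst hj
      simp <;> rfl
    · have hi : i = 0 := by
        simp only at this
        omega
      subst hi
      simp only [hj, dif_neg, not_false_eq_true]
      refine Subtype.ext ?_
      simp only [Prod.mk.injEq, true_and]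
      omega
  right_inv := by
    rintro (j | i)
    · simp
    · simp

lemma cellEquiv_col {n a b : ℕ} {h : a + b + 1 = n} (c : Cell (hook n a b h)) (hc : c.1.2 = 0) :
    ∃ hi : c.1.1 < b + 1, cellEquiv n a b h c = Sum.inr ⟨c.1.1, hi⟩ := by
  have := mem_hook.1 c.2
  refine ⟨by omega, ?_⟩
  simp [cellEquiv, hc]

lemma cellEquiv_arm {n a b : ℕ} {h : a + b + 1 = n} (c : Cell (hook n a b h)) (hc : c.1.2 ≠ 0) :
    ∃ hi : c.1.2 - 1 < a, cellEquiv n a b h c = Sum.inl ⟨c.1.2 - 1, hi⟩ := by
  have := mem_hook.1 c.2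
  refine ⟨by omega, ?_⟩
  simp [cellEquiv, hc]

instance finite_SYT {n : ℕ} (p : n.Partition) : Finite (SYT p) := by
  rcases isEmpty_or_nonempty (SYT p) with he | ⟨⟨T⟩⟩
  · infer_instance
  · have : Finite (Cell p) := Finite.of_equiv _ T.entry.symm
    have hinj : Function.Injective (fun T : SYT p => (T.entry : Cell p → Fin n)) := by
      intro T T' hT
      cases T
      cases T'
      simp only [SYT.mk.injEq]
      exact DFunLike.coe_injective hT
    exact Finite.of_injective _ hinj

/-- Lower bound for the number of tableaux of hook shape. -/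
lemma choose_le_numSYT (n a b : ℕ) (h : a + b + 1 = n) :
    (a + b).choose a ≤ numSYT (hook n a b h) := by
  subst h
  set D := {A : Finset (Fin (a + b + 1)) // A ∈ powersetCard a (univ.erase 0)} with hD
  have hcard : Nat.card D = (a + b).choose a := by
    rw [Nat.card_eq_fintype_card, Fintype.card_coe, card_powersetCard, card_erase_of_mem
      (mem_univ _)]
    simp
  have h1 : ∀ A : D, A.1.card = a := fun A => (mem_powersetCard.1 A.2).2
  have h2 : ∀ A : D, (A.1)ᶜ.card = b + 1 := fun A => by
    rw [card_compl, h1 A, Fintype.card_fin]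
    omega
  have h0 : ∀ A : D, (0 : Fin (a + b + 1)) ∉ A.1 := fun A hA => by
    have := (mem_powersetCard.1 A.2).1 hA
    simp at this
  have hz : ∀ A : D, (A.1)ᶜ.orderEmbOfFin (h2 A) ⟨0, Nat.succ_pos b⟩ = 0 := by
    intro A
    have h3 : (0 : Fin (a + b + 1)) ∈ Set.range ((A.1)ᶜ.orderEmbOfFin (h2 A)) := by
      rw [range_orderEmbOfFin]
      simpa using h0 A
    obtain ⟨k, hk⟩ := h3
    have h4 : (A.1)ᶜ.orderEmbOfFin (h2 A) ⟨0, Nat.succ_pos b⟩
        ≤ (A.1)ᶜ.orderEmbOfFin (h2 A) k :=
      ((A.1)ᶜ.orderEmbOfFin (h2 A)).monotone (Fin.mk_le_of_le_val (Nat.zero_le _))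
    rw [hk] at h4
    exact le_antisymm h4 (Fin.zero_le _)
  let e : ∀ A : D, Cell (hook (a + b + 1) a b rfl) ≃ Fin (a + b + 1) := fun A =>
    (cellEquiv _ a b rfl).trans (finSumEquivOfFinset (h1 A) (h2 A))
  let F : D → SYT (hook (a + b + 1) a b rfl) := fun A =>
    { entry := e A
      row_lt := by
        intro c d hcd hlt
        obtain ⟨hi, hd⟩ := cellEquiv_arm d (by omega)
        have hed : e A d = A.1.orderEmbOfFin (h1 A) ⟨d.1.2 - 1, hi⟩ := by
          simp [e, hd]
        by_cases hc : c.1.2 = 0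
        · obtain ⟨hi', hc'⟩ := cellEquiv_col c hc
          have hmem := mem_hook.1 d.2
          have hc0 : c.1.1 = 0 := by omega
          have hec : e A c = (A.1)ᶜ.orderEmbOfFin (h2 A) ⟨0, Nat.succ_pos b⟩ := by
            simp [e, hc', hc0]
          rw [hec, hed, hz A]
          have hmem' : A.1.orderEmbOfFin (h1 A) ⟨d.1.2 - 1, hi⟩ ∈ A.1 := orderEmbOfFin_mem _ _ _
          refine lt_of_le_of_ne (Fin.zero_le _) ?_
          intro h5
          rw [← h5] at hmem'
          exact h0 A hmem'
        · obtain ⟨hi', hc'⟩ := cellEquiv_arm c hc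
          have hec : e A c = A.1.orderEmbOfFin (h1 A) ⟨c.1.2 - 1, hi'⟩ := by
            simp [e, hc']
          rw [hec, hed]
          apply (A.1.orderEmbOfFin (h1 A)).strictMono
          rw [Fin.mk_lt_mk]
          omega
      col_lt := by
        intro c d hcd hlt
        have hmem := mem_hook.1 d.2
        have hd0 : d.1.2 = 0 := by omega
        have hc0 : c.1.2 = 0 := by omega
        obtain ⟨hi, hd⟩ := cellEquiv_col d hd0
        obtain ⟨hi', hc'⟩ := cellEquiv_col c hc0
        have hed : e A d = (A.1)ᶜ.orderEmbOfFin (h2 A) ⟨d.1.1, hi⟩ := by simp [e, hd]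
        have hec : e A c = (A.1)ᶜ.orderEmbOfFin (h2 A) ⟨c.1.1, hi'⟩ := by simp [e, hc']
        rw [hec, hed]
        apply ((A.1)ᶜ.orderEmbOfFin (h2 A)).strictMono
        rw [Fin.mk_lt_mk]
        exact hlt }
  have hinj : Function.Injective F := by
    intro A B hAB
    have he : e A = e B := by
      have := congrArg SYT.entry hAB
      exact this
    have h5 : ∀ j : Fin a, A.1.orderEmbOfFin (h1 A) j = B.1.orderEmbOfFin (h1 B) j := by
      intro j
      have h6 := congrArg (fun f => f ((cellEquiv _ a b rfl).symm (Sum.inl j))) he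
      simpa [e] using h6
    apply Subtype.ext
    rw [← Finset.coe_inj, ← range_orderEmbOfFin A.1 (h1 A), ← range_orderEmbOfFin B.1 (h1 B)]
    congr 1
    ext j
    rw [h5 j]
  unfold numSYT
  rw [← hcard]
  exact Nat.card_le_card_of_injective F hinj

/-- Upper bound for the shape `(2, 1^b)`. -/
lemma numSYT_le (n b : ℕ) (h : 1 + b + 1 = n) : numSYT (hook n 1 b h) ≤ b + 1 := by
  subst h
  set c1 : Cell (hook (1 + b + 1) 1 b rfl) := ⟨(0, 1), mem_hook.2 (Or.inl ⟨rfl, le_refl _⟩)⟩ with hc1
  set c0 : Cell (hook (1 + b + 1) 1 b rfl) :=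
    ⟨(0, 0), mem_hook.2 (Or.inl ⟨rfl, Nat.zero_le _⟩)⟩ with hc0
  have hne : ∀ T : SYT (hook (1 + b + 1) 1 b rfl), T.entry c1 ≠ 0 := by
    intro T h0
    have h1 := T.row_lt c0 c1 rfl Nat.zero_lt_one
    rw [h0] at h1
    exact absurd h1 (Fin.not_lt_zero _)
  let G : SYT (hook (1 + b + 1) 1 b rfl) → {v : Fin (1 + b + 1) // v ≠ 0} := fun T =>
    ⟨T.entry c1, hne T⟩
  have hcard : Nat.card {v : Fin (1 + b + 1) // v ≠ 0} = b + 1 := by
    rw [Nat.card_eq_fintype_card, Fintype.card_subtype_compl]
    simp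
    omega
  have hinj : Function.Injective G := by
    intro T T' hT
    have hv : T.entry c1 = T'.entry c1 := congrArg Subtype.val hT
    let col : Fin (b + 1) → Cell (hook (1 + b + 1) 1 b rfl) := fun i =>
      ⟨(i.1, 0), mem_hook.2 (Or.inr ⟨rfl, Nat.lt_succ_iff.1 i.2⟩)⟩
    have hmono : ∀ S : SYT (hook (1 + b + 1) 1 b rfl), StrictMono (fun i => S.entry (col i)) := by
      intro S i j hij
      exact S.col_lt _ _ rfl hij
    have hcases : ∀ c : Cell (hook (1 + b + 1) 1 b rfl), c = c1 ∨ ∃ i, c = col i := by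
      rintro ⟨⟨i, j⟩, hc⟩
      have hm := mem_hook.1 hc
      by_cases hj : j = 0
      · subst hj
        simp only at hm
        exact Or.inr ⟨⟨i, by omega⟩, rfl⟩
      · left
        simp only at hm
        have hi : i = 0 := by omega
        have hj1 : j = 1 := by omega
        subst hi hj1
        rfl
    have hcol : ∀ i, col i ≠ c1 := by
      intro i h1
      have := congrArg (fun c => c.1.2) h1
      simp [col, hc1] at this
    have hrange : ∀ S : SYT (hook (1 + b + 1) 1 b rfl),
        Set.range (fun i => S.entry (col i)) = {S.entry c1}ᶜ := by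
      intro S
      ext v
      simp only [Set.mem_range, Set.mem_compl_iff, Set.mem_singleton_iff]
      constructor
      · rintro ⟨i, rfl⟩ h1
        exact hcol i (S.entry.injective h1)
      · intro hv'
        rcases hcases (S.entry.symm v) with h1 | ⟨i, hi⟩
        · exact absurd (by rw [← h1]; simp) hv'
        · exact ⟨i, by rw [← hi]; simp⟩
    have hfun : (fun i => T.entry (col i)) = fun i => T'.entry (col i) := by
      rw [← (hmono T).range_inj (hmono T'), hrange T, hrange T', hv]
    have hent : T.entry = T'.entry := by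
      ext c
      rcases hcases c with rfl | ⟨i, rfl⟩
      · rw [hv]
      · rw [congrFun hfun i]
    cases T
    cases T'
    simp only [SYT.mk.injEq]
    exact hent
  unfold numSYT
  rw [← hcard]
  exact Nat.card_le_card_of_injective G hinj

/-! ### The only partition of `r + 2` with `S_r = r + 1` -/

lemma card_le_sum (s : Multiset ℕ) (h : ∀ x ∈ s, 0 < x) : Multiset.card s ≤ s.sum := by
  induction s using Multiset.induction with
  | empty => simp
  | cons a t ih =>
    have h1 := ih fun x hx => h x (Multiset.mem_cons_of_mem hx)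
    have h2 := h a (Multiset.mem_cons_self a t)
    simp only [Multiset.card_cons, Multiset.sum_cons]
    omega

lemma eq_replicate_of_sum (s : Multiset ℕ) (h : ∀ x ∈ s, 0 < x) (hs : s.sum = Multiset.card s) :
    s = Multiset.replicate (Multiset.card s) 1 := by
  induction s using Multiset.induction with
  | empty => simp
  | cons a t ih =>
    have h1 := card_le_sum t fun x hx => h x (Multiset.mem_cons_of_mem hx)
    have h2 := h a (Multiset.mem_cons_self a t)
    simp only [Multiset.card_cons, Multiset.sum_cons] at hs ⊢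
    have ha : a = 1 := by omega
    rw [Multiset.replicate_succ, ← ih (fun x hx => h x (Multiset.mem_cons_of_mem hx)) (by omega),
      ha]

lemma eq_two_cons (s : Multiset ℕ) (h : ∀ x ∈ s, 0 < x) (hs : s.sum = Multiset.card s + 1) :
    s = 2 ::ₘ Multiset.replicate (Multiset.card s - 1) 1 := by
  induction s using Multiset.induction with
  | empty => simp at hs
  | cons a t ih =>
    have ht : ∀ x ∈ t, 0 < x := fun x hx => h x (Multiset.mem_cons_of_mem hx)
    have h1 := card_le_sum t ht
    have h2 := h a (Multiset.mem_cons_self a t)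
    simp only [Multiset.card_cons, Multiset.sum_cons, Nat.add_sub_cancel] at hs ⊢
    rcases (by omega : a = 1 ∨ a = 2) with ha | ha
    · subst ha
      have h3 := ih ht (by omega)
      have h4 : 0 < Multiset.card t := by
        rcases Nat.eq_zero_or_pos (Multiset.card t) with h5 | h5
        · rw [Multiset.card_eq_zero] at h5
          subst h5
          simp at hs
        · exact h5
      obtain ⟨m, hm⟩ : ∃ m, Multiset.card t = m + 1 := ⟨Multiset.card t - 1, by omega⟩
      rw [hm, Nat.add_sub_cancel] at h3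
      rw [hm, Multiset.replicate_succ, Multiset.cons_swap, ← h3]
    · subst ha
      rw [← eq_replicate_of_sum t ht (by omega)]

lemma unique_partition (r : ℕ) (p : (r + 2).Partition) (hp : partialSum p r = r + 1) :
    p = hook (r + 2) 1 r (by omega) := by
  have hsum : (rows p).sum = r + 2 := by
    have h1 : ((rows p : List ℕ) : Multiset ℕ) = p.parts := Multiset.sort_eq _ _
    rw [← Multiset.sum_coe, h1, p.parts_sum]
  have hlen : (rows p).length = Multiset.card p.parts := by
    unfold rows
    exact Multiset.length_sort _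
  have hpos : ∀ x ∈ rows p, 0 < x := by
    intro x hx
    unfold rows at hx
    rw [Multiset.mem_sort] at hx
    exact p.parts_pos hx
  have hdrop : ((rows p).drop r).sum = 1 := by
    have h1 := List.sum_take_add_sum_drop (rows p) r
    unfold partialSum at hp
    omega
  have hdl : ((rows p).drop r).length ≤ 1 := by
    have h1 := card_le_sum (((rows p).drop r : List ℕ) : Multiset ℕ) (by
      intro x hx
      exact hpos x (List.mem_of_mem_drop (Multiset.mem_coe.1 hx)))
    rw [Multiset.coe_card, Multiset.sum_coe, hdrop] at h1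
    exact h1
  have hdl' : ((rows p).drop r).length ≠ 0 := by
    intro h0
    rw [List.length_eq_zero_iff] at h0
    rw [h0] at hdrop
    simp at hdrop
  have hcard : Multiset.card p.parts = r + 1 := by
    rw [List.length_drop] at hdl hdl'
    omega
  have h3 := eq_two_cons p.parts (fun x hx => p.parts_pos hx) (by rw [p.parts_sum, hcard])
  rw [hcard, Nat.add_sub_cancel] at h3
  exact Nat.Partition.ext h3

/-! ### The result -/

lemma choose_four (N : ℕ) (hN : 8 ≤ N) : N ^ 2 < N.choose 4 := by
  have h1 : N.descFactorial 4 = 24 * N.choose 4 := by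
    rw [Nat.descFactorial_eq_factorial_mul_choose]
    rfl
  obtain ⟨M, rfl⟩ : ∃ M, N = M + 8 := ⟨N - 8, by omega⟩
  have h2 : (M + 8).descFactorial 4 = (M + 5) * ((M + 6) * ((M + 7) * (M + 8))) := by
    simp [Nat.descFactorial]
  rw [h2] at h1
  have h3 : 24 * (M + 8) < (M + 5) * (M + 6) * (M + 7) := by
    have : (M + 5) * (M + 6) * (M + 7) = M ^ 3 + 18 * M ^ 2 + 107 * M + 210 := by ring
    rw [this]
    have h4 : 0 ≤ M ^ 3 := Nat.zero_le _
    have h5 : 0 ≤ M ^ 2 := Nat.zero_le _
    omega
  have h6 : 24 * (M + 8) * (M + 8) < (M + 5) * (M + 6) * (M + 7) * (M + 8) :=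
    Nat.mul_lt_mul_of_pos_right h3 (by omega)
  have h7 : 24 * (M + 8) ^ 2 < 24 * (M + 8).choose 4 := by
    calc 24 * (M + 8) ^ 2 = 24 * (M + 8) * (M + 8) := by ring
      _ < (M + 5) * (M + 6) * (M + 7) * (M + 8) := h6
      _ = (M + 5) * ((M + 6) * ((M + 7) * (M + 8))) := by ring
      _ = _ := h1
  omega

lemma plancherel_nonneg {n : ℕ} (p : n.Partition) : 0 ≤ plancherel p := by
  unfold plancherel
  positivity

lemma le_prob {n r : ℕ} (p : n.Partition) {j : ℤ} (hj : (partialSum p r : ℤ) = j) :
    plancherel p ≤ prob n r j := by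
  unfold prob
  have h1 := Finset.single_le_sum (f := fun q : n.Partition =>
    if (partialSum q r : ℤ) = j then plancherel q else 0) (s := univ) (fun q _ => by
      split_ifs
      · exact plancherel_nonneg q
      · exact le_refl _) (mem_univ p)
  simp only [hj, if_true] at h1
  exact h1

lemma real_ineq {F c x A B C : ℝ} (hF : 0 < F) (hc : x ^ 2 < c) (hA : 1 / F ≤ A)
    (hB : c ^ 2 / F ≤ B) (hC : C ≤ x ^ 2 / F) (hC0 : 0 ≤ C) : C ^ 2 < A * B := by
  have h1 : C ^ 2 ≤ (x ^ 2 / F) ^ 2 := pow_le_pow_left₀ hC0 hC 2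
  have h2 : (x ^ 2) ^ 2 < c ^ 2 := pow_lt_pow_left₀ hc (by positivity) (by norm_num)
  have h3 : (x ^ 2 / F) ^ 2 < 1 / F * (c ^ 2 / F) := by
    rw [div_mul_div_comm, one_mul, div_pow, ← sq]
    exact div_lt_div_of_pos_right h2 (by positivity)
  have h4 : 1 / F * (c ^ 2 / F) ≤ A * B :=
    mul_le_mul hA hB (by positivity) (le_trans (by positivity) hA)
  linarith

lemma not_logConcave (r : ℕ) (hr : 7 ≤ r) : ¬ LogConcave (prob (r + 2) r) := by
  intro hlc
  have hj := hlc ((r : ℤ) + 1)
  obtain ⟨s, rfl⟩ : ∃ s, r = s + 1 := ⟨r - 1, by omega⟩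
  have hfac : (0 : ℝ) < ((s + 1 + 2).factorial : ℝ) := by positivity
  -- lower bounds
  have hA : 1 / ((s + 1 + 2).factorial : ℝ) ≤ prob (s + 1 + 2) (s + 1) (((s + 1 : ℕ) : ℤ) + 1 - 1) := by
    refine le_trans ?_ (le_prob (hook (s + 1 + 2) 0 (s + 2) (by omega)) ?_)
    · unfold plancherel
      have h1 := choose_le_numSYT (s + 1 + 2) 0 (s + 2) (by omega)
      have h2 : (1 : ℝ) ≤ (numSYT (hook (s + 1 + 2) 0 (s + 2) (by omega)) : ℝ) := by
        have : 1 ≤ numSYT (hook (s + 1 + 2) 0 (s + 2) (by omega)) := by simpa using h1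
        exact_mod_cast this
      exact div_le_div_of_nonneg_right (one_le_pow₀ h2) hfac.le
    · rw [partialSum_hook]
      push_cast
      rw [min_eq_left (by omega)]
      ring
  have hB : (((s + 2).choose 4 : ℕ) : ℝ) ^ 2 / ((s + 1 + 2).factorial : ℝ)
      ≤ prob (s + 1 + 2) (s + 1) (((s + 1 : ℕ) : ℤ) + 1 + 1) := by
    obtain ⟨t, rfl⟩ : ∃ t, s = t + 2 := ⟨s - 2, by omega⟩
    refine le_trans ?_ (le_prob (hook (t + 2 + 1 + 2) 4 t (by omega)) ?_)
    · unfold plancherel
      have h1 := choose_le_numSYT (t + 2 + 1 + 2) 4 t (by omega)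
      have h2 : (((t + 2 + 2).choose 4 : ℕ) : ℝ)
          ≤ (numSYT (hook (t + 2 + 1 + 2) 4 t (by omega)) : ℝ) := by
        have h3 : (4 + t).choose 4 = (t + 2 + 2).choose 4 := by
          congr 1
          omega
        rw [h3] at h1
        exact_mod_cast h1
      exact div_le_div_of_nonneg_right (pow_le_pow_left₀ (by positivity) h2 2) hfac.le
    · rw [partialSum_hook]
      push_cast
      rw [min_eq_right (by omega)]
      ring
  -- upper bound
  have hC : prob (s + 1 + 2) (s + 1) (((s + 1 : ℕ) : ℤ) + 1)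
      ≤ ((s : ℝ) + 2) ^ 2 / ((s + 1 + 2).factorial : ℝ) := by
    unfold prob
    have h1 : ∀ p : (s + 1 + 2).Partition, (if (partialSum p (s + 1) : ℤ) = ((s + 1 : ℕ) : ℤ) + 1
        then plancherel p else 0)
        = if p = hook (s + 1 + 2) 1 (s + 1) (by omega) then plancherel p else 0 := by
      intro p
      by_cases hp : p = hook (s + 1 + 2) 1 (s + 1) (by omega)
      · rw [if_pos hp, if_pos]
        rw [hp, partialSum_hook]
        push_cast
        rw [min_eq_left (by omega)]
        ring
      · rw [if_neg hp, if_neg]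
        intro h2
        exact hp (unique_partition (s + 1) p (by exact_mod_cast h2))
    rw [Finset.sum_congr rfl fun p _ => h1 p, Finset.sum_ite_eq' univ, if_pos (mem_univ _)]
    unfold plancherel
    have h2 := numSYT_le (s + 1 + 2) (s + 1) (by omega)
    have h3 : (numSYT (hook (s + 1 + 2) 1 (s + 1) (by omega)) : ℝ) ≤ (s : ℝ) + 2 := by
      have : (numSYT (hook (s + 1 + 2) 1 (s + 1) (by omega)) : ℝ) ≤ ((s + 1 + 1 : ℕ) : ℝ) := by
        exact_mod_cast h2
      push_cast at this
      linarith
    exact div_le_div_of_nonneg_right (pow_le_pow_left₀ (by positivity) h3 2) hfac.le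
  have hC0 : 0 ≤ prob (s + 1 + 2) (s + 1) (((s + 1 : ℕ) : ℤ) + 1) :=
    Finset.sum_nonneg fun q _ => by
      split_ifs
      · exact plancherel_nonneg q
      · exact le_refl _
  have hN := choose_four (s + 2) (by omega)
  have hN' : ((s : ℝ) + 2) ^ 2 < (((s + 2).choose 4 : ℕ) : ℝ) := by
    have : (((s + 2) ^ 2 : ℕ) : ℝ) < (((s + 2).choose 4 : ℕ) : ℝ) := by exact_mod_cast hN
    push_cast at this
    exact this
  exact absurd hj (not_le.2 (real_ineq hfac hN' hA hB hC hC0))

/-- **Result.** For every `r ≥ 7`, the law of `S_r = λ₁ + ⋯ + λ_r` under the Plancherel measure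
on partitions of `n = r + 2` is not log-concave.  In particular the assertion of Q2 (for every
`n ≥ 1` and `r ≥ 2` the law of `S_r` under `μ_n` is log-concave) is false. -/
theorem result :
    (∀ r : ℕ, 7 ≤ r → ¬ LogConcave (prob (r + 2) r)) ∧
    ¬ ∀ n r : ℕ, 1 ≤ n → 2 ≤ r → LogConcave (prob n r) :=
  ⟨not_logConcave, fun h => not_logConcave 7 (le_refl _) (h _ _ (by norm_num) (by norm_num))⟩

end Pool.Agent.Results.MP_64a7c6_pr.PartialSumsNotLogConcave
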